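import Pool.Agent.GH.D5.Base5
import Pool.Agent.GH.LN.FExpN

/-!
# Ghost conjecture `(5,2)`: definitions used in the proof

`Ψ = E(q²)²/E(q)`, `A = (Ψ⁵/Ψ(q⁵))²` (weight four; `F_2 = qΨ⁸ = A f`), `h = f(q)`,
`g = f(q⁵) = h⁵/S(h)` with `S(f) = A(q⁵)/A(q)`; `D = (θf/f)/((1-f)(1-5f))` (weight two);
the matrices `Mat52 c x` of `U_5` in the bases `A^x D^c f^j` of the forms of weight `4x + 2c`
(before the factor `1 - f` is split off), `c = 0, 1`. The weight `z^{4x}` is `w = 11^{4x} - 1`.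
-/

open PowerSeries Filter Topology

noncomputable section

namespace GH

namespace D52

theorem five_ne : (5 : ℕ) ≠ 0 := by norm_num

/-- `A = (Ψ⁵/Ψ(q⁵))²`, `Ψ = E(q²)²/E(q)`. -/
def A52 (R : Type*) [CommRing R] : PowerSeries R :=
  etaN 2 R ^ 10 * invOfUnit (etaNp 5 2 R) 1 ^ 2

/-- The series `S` in one variable `h` with `S(f(q)) = A(q⁵)/A(q)`. -/
def S52 (R : Type*) [CommRing R] : PowerSeries R :=
  PowerSeries.mk fun n ↦
    fcoeffN 5 2 ((A52 R).expand 5 five_ne * invOfUnit (A52 R) 1) n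

/-- `g = h⁵/S(h)`: `f(q⁵)` in terms of `h = f(q)`. -/
def gs52 (R : Type*) [CommRing R] : PowerSeries R := X ^ 5 * invOfUnit (S52 R) 1

/-- `n_s = (1-x)⁴ (1-4x-x²)^{1-c}`. -/
def ns52 {A : Type*} [CommRing A] (c : ℕ) (x : A) : A :=
  (1 - x) ^ 4 * (1 - 4 * x - x ^ 2) ^ (1 - c)

/-- `ψ_s = (1-5x)⁴ (1+20x-25x²)^{1-c}`. -/
def ps52 {A : Type*} [CommRing A] (c : ℕ) (x : A) : A :=
  (1 - 5 * x) ^ 4 * (1 + 20 * x - 25 * x ^ 2) ^ (1 - c)

/-- The matrix of `U_5` in the basis `A^x D^c f^j`, `c = 0, 1`: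
`[h^{5i-j}] S^{i-x-1} n_s(h)/ψ_s(g)`. -/
def Mat52 {K : Type*} [Field K] (c : ℕ) (x : K) (i j : ℕ) : K :=
  if j ≤ 5 * i then
    PowerSeries.coeff (5 * i - j)
      (ppow (S52 K) ((i : K) - x - 1) *
        (ns52 c (X : PowerSeries K) * invOfUnit (ps52 c (gs52 K)) 1))
  else 0

/-- `A^x`, a form of weight `4x`. -/
def APow52 {K : Type*} [Field K] (x : K) : PowerSeries K := ppow (A52 K) x

/-- `θF = q dF/dq`. -/
def thq52 {R : Type*} [CommRing R] (F : PowerSeries R) : PowerSeries R :=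
  PowerSeries.mk fun n ↦ (n : R) * PowerSeries.coeff n F

/-- `θf/f` for the series `f = hauptN 5 2`, computed as `θ(u)/u + 1` for `f = q u`. -/
def dlog52 (R : Type*) [CommRing R] : PowerSeries R :=
  1 + thq52 (LN.fxU 5 2 R) * invOfUnit (LN.fxU 5 2 R) 1

/-- `D = (θf/f)/((1-f)(1-5f))`. -/
def D52 (R : Type*) [CommRing R] : PowerSeries R :=
  dlog52 R * invOfUnit ((1 - hauptN 5 2 R) * (1 - 5 * hauptN 5 2 R)) 1

/-- The theorem on the central disc: the Newton polygon of the Fredholm series on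
`A^x D^c f ℂ⟨f⟩` (eigenvalue `1` at the cusp `f = 1` and the cusp forms). -/
def CentralTheorem52 : Prop :=
  ∀ c : ℕ, c ≤ 1 → ∀ x : D5.C5, ‖x‖ ≤ 1 →
    newtonPolygon 5 (fred (Mat52 c x)) =
      newtonPolygon 5 (fun n ↦ if n < 1 then 1 else
        ghostN 5 2 c (121 ^ c * (1 + D5.wx5 (2 * x)) - 1) (n - 1))

end D52

end GH
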