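import Pool.Agent.GH.LN.PStm
import Pool.Agent.GH.LN.MtN
import Pool.Agent.GH.LN.LagN
import Pool.Agent.GH.D5.UBound5

/-!
# `(5,2)`: the bounds
-/

set_option autoImplicit false

open PowerSeries Filter Topology

noncomputable section

namespace GH

namespace D52

open LN D5

/-! ### The equation -/

theorem lp3_c : PowerSeries.constantCoeff (S52 C5) = 1 := LN.constantCoeff_SN 5 2 five_ne C5

theorem lp3_ST : S52 C5 * invOfUnit (S52 C5) 1 = 1 := LN.mul_inv_of lp3_c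

theorem lp3_gS : gs52 C5 * S52 C5 = X ^ 5 := LN.gsN_mul 5 2 five_ne C5

theorem lp3_g0 : PowerSeries.constantCoeff (gs52 C5) = 0 := LN.constantCoeff_gsN 5 2 five_ne C5

theorem lp3_eq (he : Eq52) : S52 C5 * (1 - gs52 C5) * (1 - 5 * gs52 C5) ^ 5 =
    (1 - (X : PowerSeries C5)) ^ 5 * (1 - 5 * X) := by
  have h1 := congrArg (PowerSeries.map (Int.castRingHom C5)) he
  simp only [S52_eq, gs52_eq] at h1 ⊢
  simp only [map_mul, map_pow, map_sub, map_one, map_ofNat, PowerSeries.map_X, map_SN,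
    map_gsN] at h1
  exact h1

theorem lp3_coeff (n : ℕ) : PowerSeries.coeff n (S52 C5) =
    ((PowerSeries.coeff n (S52 ℤ) : ℤ) : C5) := by
  have h := LN.map_SN 5 2 five_ne ℤ (Int.castRingHom C5)
  rw [S52_eq, S52_eq, ← h, PowerSeries.coeff_map]
  rfl

theorem lp3_pk (m : ℕ) (z : ℤ) (h : (5 : ℤ) ^ m ∣ z) : ‖(z : C5)‖ ≤ (5 : ℝ)⁻¹ ^ m := by
  obtain ⟨k, rfl⟩ := h
  have h1 : (((5 : ℤ) ^ m * k : ℤ) : C5) = 5 ^ m * (k : C5) := by push_cast; ring
  rw [h1, norm_mul, norm_pow, norm_five_C5]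
  exact mul_le_of_le_one_right (by positivity) (d5_ubn_int k)

/-! ### Bounds -/

theorem lp3_bS1 (hg : Gr52) : Bd (41 / 40) (2 / 5) (S52 C5 - 1) := by
  intro n
  rcases Nat.eq_zero_or_pos n with rfl | hn
  · rw [map_sub, PowerSeries.coeff_zero_eq_constantCoeff_apply, lp3_c,
      PowerSeries.coeff_zero_eq_constantCoeff_apply, map_one, sub_self, norm_zero, zero_mul]
    norm_num
  · have h0 : PowerSeries.coeff n (S52 C5 - 1) = PowerSeries.coeff n (S52 C5) := by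
      rw [map_sub, PowerSeries.coeff_one, if_neg (by omega), sub_zero]
    rw [h0, lp3_coeff]
    have h1 := lp3_pk _ _ (hg n)
    obtain ⟨m, hm⟩ : ∃ m, (n + 5) / 6 = m + 1 := ⟨(n + 5) / 6 - 1, by omega⟩
    rw [hm] at h1
    have hn6 : n ≤ 6 * (m + 1) := by omega
    have h2 : (41 / 40 : ℝ) ^ n ≤ (41 / 40 : ℝ) ^ (6 * (m + 1)) :=
      pow_le_pow_right₀ (by norm_num) hn6
    calc ‖((PowerSeries.coeff n (S52 ℤ) : ℤ) : C5)‖ * (41 / 40 : ℝ) ^ n
        ≤ (5 : ℝ)⁻¹ ^ (m + 1) * (41 / 40 : ℝ) ^ (6 * (m + 1)) :=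
          mul_le_mul h1 h2 (by positivity) (by positivity)
      _ = ((5 : ℝ)⁻¹ * (41 / 40 : ℝ) ^ 6) ^ (m + 1) := by rw [mul_pow, ← pow_mul]
      _ = ((5 : ℝ)⁻¹ * (41 / 40 : ℝ) ^ 6) ^ m * ((5 : ℝ)⁻¹ * (41 / 40 : ℝ) ^ 6) := pow_succ _ _
      _ ≤ 1 * (2 / 5) :=
          mul_le_mul (pow_le_one₀ (by positivity) (by norm_num)) (by norm_num) (by positivity)
            zero_le_one
      _ = 2 / 5 := one_mul _

theorem lp3_bS (hg : Gr52) : Bd (41 / 40) 1 (S52 C5) := by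
  have h1 := (lp3_bS1 hg).mono_c (show (2 / 5 : ℝ) ≤ 1 by norm_num)
  have h2 : Bd (41 / 40) 1 (1 : PowerSeries C5) := Bd.one le_rfl
  have h3 := h1.add (by norm_num) h2
  rwa [sub_add_cancel] at h3

section rad

variable {r : ℝ} (h1 : 1 ≤ r) (h2 : r ≤ 41 / 40)

include h1 h2

theorem lp3_bT (hg : Gr52) : Bd r 1 (invOfUnit (S52 C5) 1) :=
  ((lp3_bS hg).inv (by norm_num) lp3_c lp3_ST).mono_r (by linarith) h2

omit h1 in
theorem lp3_r (h0 : 0 ≤ r) (n : ℕ) (c : ℝ) (hc : (41 / 40 : ℝ) ^ n ≤ c) : r ^ n ≤ c :=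
  (pow_le_pow_left₀ h0 h2 n).trans hc

theorem lp3_b5g (hg : Gr52) : Bd r 1 (5 * gs52 C5) := by
  have h0 : (0 : ℝ) < r := by linarith
  have e : (5 : PowerSeries C5) * gs52 C5 = C (5 : C5) * (X ^ 5 * invOfUnit (S52 C5) 1) := by
    rw [map_ofNat]
    rfl
  rw [e]
  refine (lp3_bT h1 h2 hg).CX h0 ?_
  rw [norm_five_C5]
  have h3 := lp3_r h2 h0.le 5 2 (by norm_num)
  have h4 : (0 : ℝ) ≤ r ^ 5 := by positivity
  norm_num
  linarith

/-- `1 - 5g`. -/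
theorem lp3_b15g (hg : Gr52) : Bd r 1 (1 - 5 * gs52 C5) :=
  (Bd.one le_rfl).sub (by linarith) (lp3_b5g h1 h2 hg)

/-- `1 + 20g - 25g²`. -/
theorem lp3_bq (hg : Gr52) : Bd r 1 (1 + 20 * gs52 C5 - 25 * gs52 C5 ^ 2) := by
  have h0 : (0 : ℝ) < r := by linarith
  have h5 := lp3_b5g h1 h2 hg
  have e1 : (20 : PowerSeries C5) * gs52 C5 = (5 * gs52 C5) * C (4 : C5) := by
    rw [map_ofNat]
    ring
  have e2 : (25 : PowerSeries C5) * gs52 C5 ^ 2 = (5 * gs52 C5) ^ 2 := by ring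
  rw [e1, e2]
  refine Bd.sub h0.le (Bd.add h0.le (Bd.one le_rfl) (h5.mul1 h0 (Bd.of_C ?_))) (h5.pow1 h0 2)
  exact_mod_cast d5_ubn_nat 4

/-- `5X`. -/
theorem lp3_b5X : Bd r 1 (5 * (X : PowerSeries C5)) := by
  have h0 : (0 : ℝ) < r := by linarith
  have e : (5 : PowerSeries C5) * X = C (5 : C5) * (X ^ 1 * 1) := by
    rw [map_ofNat]
    ring
  rw [e]
  refine (Bd.one (c := 1) le_rfl).CX h0 ?_
  rw [norm_five_C5]
  norm_num
  linarith

/-- `1 - 5X`. -/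
theorem lp3_b15X : Bd r 1 (1 - 5 * (X : PowerSeries C5)) :=
  (Bd.one le_rfl).sub (by linarith) (lp3_b5X h1 h2)

/-- `1 + 20X - 25X²`. -/
theorem lp3_bqX : Bd r 1 (1 + 20 * (X : PowerSeries C5) - 25 * X ^ 2) := by
  have h0 : (0 : ℝ) < r := by linarith
  have h5 := lp3_b5X h1 h2
  have e1 : (20 : PowerSeries C5) * X = (5 * X) * C (4 : C5) := by
    rw [map_ofNat]
    ring
  have e2 : (25 : PowerSeries C5) * X ^ 2 = (5 * X) ^ 2 := by ring
  rw [e1, e2]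
  refine Bd.sub h0.le (Bd.add h0.le (Bd.one le_rfl) (h5.mul1 h0 (Bd.of_C ?_))) (h5.pow1 h0 2)
  exact_mod_cast d5_ubn_nat 4

omit h2 in
/-- `1 - X`. -/
theorem lp3_b1X : Bd r r (1 - (X : PowerSeries C5)) :=
  (Bd.one h1).sub (by linarith) (Bd.X_le (by linarith) le_rfl)

omit h2 in
/-- `1 - 4X - X²`. -/
theorem lp3_bn : Bd r (r ^ 2) (1 - 4 * (X : PowerSeries C5) - X ^ 2) := by
  have h0 : (0 : ℝ) < r := by linarith
  have hr : r ≤ r ^ 2 := by nlinarith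
  have e1 : (4 : PowerSeries C5) * X = X * C (4 : C5) := by
    rw [map_ofNat]
    ring
  rw [e1]
  refine Bd.sub h0.le (Bd.sub h0.le (Bd.one (by linarith)) ?_) ?_
  · refine Bd.mul1 h0 ((Bd.X_le h0.le le_rfl).mono_c hr) (Bd.of_C ?_)
    exact_mod_cast d5_ubn_nat 4
  · exact (Bd.X_le h0.le le_rfl).pow h0 2

/-- The inverse of `ps52 c (g)`. -/
theorem lp3_bps (hg : Gr52) (c : ℕ) : Bd r 1 (ps52 c (gs52 C5)) := by
  have h0 : (0 : ℝ) < r := by linarith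
  exact ((lp3_b15g h1 h2 hg).pow1 h0 4).mul1 h0 ((lp3_bq h1 h2 hg).pow1 h0 (1 - c))

end rad

theorem lp3_ps0 (c : ℕ) : PowerSeries.constantCoeff (ps52 c (gs52 C5)) = 1 := by
  unfold ps52
  simp [lp3_g0]

theorem lp3_qs0 (e : ℕ) : PowerSeries.constantCoeff
    ((1 - 5 * (X : PowerSeries C5)) * (1 + 20 * gs52 C5 - 25 * gs52 C5 ^ 2) ^ e) = 1 := by
  simp [lp3_g0]

section rad2

variable {r : ℝ} (h1 : 1 ≤ r) (h2 : r ≤ 41 / 40)

include h1 h2

theorem lp3_bips (hg : Gr52) (c : ℕ) : Bd r 1 (invOfUnit (ps52 c (gs52 C5)) 1) :=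
  (lp3_bps h1 h2 hg c).inv (by linarith) (lp3_ps0 c) (LN.mul_inv_of (lp3_ps0 c))

theorem lp3_biqs (hg : Gr52) (e : ℕ) : Bd r 1
    (invOfUnit ((1 - 5 * (X : PowerSeries C5)) * (1 + 20 * gs52 C5 - 25 * gs52 C5 ^ 2) ^ e) 1) := by
  have h0 : (0 : ℝ) < r := by linarith
  exact ((lp3_b15X h1 h2).mul1 h0 ((lp3_bq h1 h2 hg).pow1 h0 e)).inv h0 (lp3_qs0 e)
    (LN.mul_inv_of (lp3_qs0 e))

omit h2 in
theorem lp3_bne (e : ℕ) (he : e ≤ 1) :
    Bd r (r ^ 2) ((1 - 4 * (X : PowerSeries C5) - X ^ 2) ^ e) := by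
  have h0 : (0 : ℝ) < r := by linarith
  have hr : 1 ≤ r ^ 2 := one_le_pow₀ h1
  interval_cases e
  · rw [pow_zero]
    exact Bd.one hr
  · rw [pow_one]
    exact lp3_bn h1

theorem lp3_bR (hg : Gr52) (c : ℕ) : Bd r (r ^ 6) (R52 c C5) := by
  have h0 : (0 : ℝ) < r := by linarith
  have hn : Bd r (r ^ 4 * r ^ 2) (ns52 c (X : PowerSeries C5)) :=
    ((lp3_b1X h1).pow h0 4).mul h0 (lp3_bne h1 (1 - c) (by omega))
  have h3 := (lp3_bT h1 h2 hg).mul h0 (hn.mul1 h0 (lp3_bips h1 h2 hg c))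
  rw [one_mul, ← pow_add] at h3
  exact h3

theorem lp3_bRc (hg : Gr52) (c : ℕ) : Bd r (r ^ 2) (Rc52 c C5) := by
  have h0 : (0 : ℝ) < r := by linarith
  have h3 := ((lp3_b15g h1 h2 hg).mul h0 (lp3_bne h1 (1 - c) (by omega))).mul1 h0
    (lp3_biqs h1 h2 hg (1 - c))
  rw [one_mul] at h3
  exact h3

theorem lp3_bRe (hg : Gr52) : Bd r 1 (Re52 C5) := by
  have h0 : (0 : ℝ) < r := by linarith
  have h3 := ((lp3_b15g h1 h2 hg).mul1 h0 (lp3_bqX h1 h2)).mul1 h0 (lp3_biqs h1 h2 hg 1)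
  rw [pow_one] at h3
  exact h3

end rad2

/-! ### The relations -/

theorem lp3_rel (he : Eq52) (c : ℕ) :
    R52 c C5 * (1 - C (1 : C5) * X) = (1 - C (1 : C5) * gs52 C5) * Rc52 c C5 := by
  have hP := LN.mul_inv_of (lp3_ps0 c)
  have hQ := LN.mul_inv_of (lp3_qs0 (1 - c))
  have hE := lp3_eq he
  have hST := lp3_ST
  unfold R52 Rc52
  unfold ps52 at hP ⊢
  unfold ns52
  rw [map_one]
  set T := invOfUnit (S52 C5) 1
  set iP := invOfUnit ((1 - 5 * gs52 C5) ^ 4 *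
    (1 + 20 * gs52 C5 - 25 * gs52 C5 ^ 2) ^ (1 - c)) 1
  set iQ := invOfUnit ((1 - 5 * (X : PowerSeries C5)) *
    (1 + 20 * gs52 C5 - 25 * gs52 C5 ^ 2) ^ (1 - c)) 1
  set a := (1 - 4 * (X : PowerSeries C5) - X ^ 2) ^ (1 - c)
  set q := (1 + 20 * gs52 C5 - 25 * gs52 C5 ^ 2) ^ (1 - c)
  have hT : (1 - gs52 C5) * (1 - 5 * gs52 C5) ^ 5 =
      T * ((1 - (X : PowerSeries C5)) ^ 5 * (1 - 5 * X)) := by
    rw [← hE]
    linear_combination (-((1 - gs52 C5) * (1 - 5 * gs52 C5) ^ 5)) * hST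
  linear_combination (-(T * (1 - (X : PowerSeries C5)) ^ 5 * a * iP)) * hQ -
    (a * q * iP * iQ) * hT + ((1 - gs52 C5) * (1 - 5 * gs52 C5) * a * iQ) * hP

theorem lp3_cS (he : Eq52) (hg : Gr52) : ∃ S1 : PowerSeries C5, Bd (41 / 40) 2 S1 ∧
    S52 C5 = 1 + (1 - C (1 : C5) * X) * S1 := by
  have h0 : (0 : ℝ) < 41 / 40 := by norm_num
  have hle : (1 : ℝ) ≤ 41 / 40 := by norm_num
  have hc : PowerSeries.constantCoeff (1 - 5 * gs52 C5) = 1 := by simp [lp3_g0]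
  have hW := LN.mul_inv_of hc
  set V := invOfUnit (1 - 5 * gs52 C5) 1 with hV
  have bV : Bd (41 / 40) 1 V := (lp3_b15g hle le_rfl hg).inv h0 hc hW
  refine ⟨(1 - X) ^ 4 * ((1 - 5 * X) * V ^ 5) - (1 + X + X ^ 2 + X ^ 3 + X ^ 4), ?_, ?_⟩
  · have h4 : Bd (41 / 40) ((41 / 40) ^ 4) ((1 - (X : PowerSeries C5)) ^ 4) :=
      (lp3_b1X hle).pow h0 4
    have hX : Bd (41 / 40) (41 / 40) (X : PowerSeries C5) := Bd.X_le h0.le le_rfl
    refine Bd.sub h0.le ?_ ?_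
    · refine ((h4.mul1 h0 ((lp3_b15X hle le_rfl).mul1 h0 (bV.pow1 h0 5)))).mono_c ?_
      norm_num
    · refine Bd.add h0.le (Bd.add h0.le (Bd.add h0.le (Bd.add h0.le (Bd.one (by norm_num))
        (hX.mono_c (by norm_num))) ((hX.pow h0 2).mono_c (by norm_num)))
        ((hX.pow h0 3).mono_c (by norm_num))) ((hX.pow h0 4).mono_c (by norm_num))
  · have hE := lp3_eq he
    have hgS := lp3_gS
    have hW5 : (1 - 5 * gs52 C5) ^ 5 * V ^ 5 = 1 := by rw [← mul_pow, hW, one_pow]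
    rw [map_one]
    linear_combination V ^ 5 * hE + hgS - (S52 C5 * (1 - gs52 C5)) * hW5

theorem lp3_hR (he : Eq52) : RelR 5 (S52 C5) (R52 0 C5) := by
  have hE := lp3_eq he
  have h1 := LN.polyR (K := C5) 5 ((1 - Polynomial.X) * (1 - 5 * Polynomial.X) ^ 5)
    ((1 - Polynomial.X) ^ 5 * (1 - 5 * Polynomial.X)) lp3_gS (by
      rw [← Polynomial.coeToPowerSeries.ringHom_apply]
      simp only [map_mul, map_pow, map_sub, map_one, map_ofNat, Polynomial.aeval_X,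
        Polynomial.coeToPowerSeries.ringHom_apply, Polynomial.coe_X]
      rw [← hE]
      ring)
  have e1 : ((1 - Polynomial.X) * (1 - 5 * Polynomial.X) ^ 5 : Polynomial C5) -
      Polynomial.X * Polynomial.derivative ((1 - Polynomial.X) * (1 - 5 * Polynomial.X) ^ 5) =
      (1 - 5 * Polynomial.X) ^ 4 * (1 + 20 * Polynomial.X - 25 * Polynomial.X ^ 2) := by
    simp only [Polynomial.derivative_sub, Polynomial.derivative_mul,
      Polynomial.derivative_pow, Polynomial.derivative_one, Polynomial.derivative_X,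
      Polynomial.derivative_ofNat]
    push_cast
    simp only [map_ofNat]
    ring
  have e2 : Polynomial.derivative ((1 - Polynomial.X) ^ 5 * (1 - 5 * Polynomial.X) :
      Polynomial C5) = -5 * (1 - Polynomial.X) ^ 4 * (1 - 5 * Polynomial.X) -
      5 * (1 - Polynomial.X) ^ 5 := by
    simp only [Polynomial.derivative_sub, Polynomial.derivative_mul,
      Polynomial.derivative_pow, Polynomial.derivative_one, Polynomial.derivative_X,
      Polynomial.derivative_ofNat]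
    push_cast
    simp only [map_ofNat]
    ring
  rw [e1, e2] at h1
  rw [← Polynomial.coeToPowerSeries.ringHom_apply,
    ← Polynomial.coeToPowerSeries.ringHom_apply] at h1
  simp only [map_mul, map_pow, map_sub, map_add, map_neg, map_one, map_ofNat,
    Polynomial.aeval_X,
    Polynomial.coeToPowerSeries.ringHom_apply, Polynomial.coe_X] at h1
  have hP := LN.mul_inv_of (lp3_ps0 0)
  have hST := lp3_ST
  unfold RelR R52
  unfold ps52 at hP ⊢
  unfold ns52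
  simp only [Nat.sub_zero, pow_one] at hP ⊢
  set T := invOfUnit (S52 C5) 1
  set iP := invOfUnit ((1 - 5 * gs52 C5) ^ 4 *
    (1 + 20 * gs52 C5 - 25 * gs52 C5 ^ 2)) 1
  push_cast at h1 ⊢
  linear_combination (5 * (1 - (X : PowerSeries C5)) ^ 4 * (1 - 4 * X - X ^ 2) * iP) * hST +
    (5 * S52 C5 - X * derivative C5 (S52 C5)) * hP - iP * h1

theorem bnd52 (he : Eq52) (hg : Gr52) : Bnd52 where
  hR := lp3_hR he
  s := ⟨lp3_bS1 hg, lp3_cS he hg⟩
  c := fun c _ => {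
    rel := lp3_rel he c
    bP := (lp3_bR (by norm_num) le_rfl hg c).mono_c (by norm_num)
    bPc := (lp3_bRc (by norm_num) le_rfl hg c).mono_c (by norm_num)
    bP1 := by
      have h := lp3_bR (r := 1) le_rfl (by norm_num) hg c
      rwa [one_pow] at h
    bPc1 := by
      have h := lp3_bRc (r := 1) le_rfl (by norm_num) hg c
      rwa [one_pow] at h }
  e := lp3_bRe (by norm_num) le_rfl hg
  e1 := lp3_bRe le_rfl (by norm_num) hg

end D52

end GH
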