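import Pool.Agent.GH.LN.PHelp
import Pool.Agent.GH.D5.Param5

/-!
# Level `N`: the cusp for `(5, 2)`
-/

open PowerSeries Filter Topology

noncomputable section

namespace GH

namespace D52

open LN D5

/-! ### The ghost series -/

theorem lp14_ghost_zero (p N ν : ℕ) {K : Type*} [Field K] (w : K) : ghostN p N ν w 0 = 1 := by
  unfold ghostN
  have h : ∀ k : ℕ, multN p N 0 k = 0 := fun k ↦ by
    unfold multN
    rw [if_neg (by omega)]
  have h2 : (fun k : ℕ ↦ if Even k ∧ k ≡ 2 * ν [MOD p - 1] then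
    (w - ((1 + 2 * (p : K)) ^ k - 1)) ^ multN p N 0 k else 1) = fun _ ↦ 1 := by
    funext k
    rw [h, pow_zero, ite_self]
  rw [h2, finprod_one]

theorem lp14_ghost_le (p N ν : ℕ) [Fact p.Prime] {w : PadicComplex p} (hw : ‖w‖ ≤ 1) (n : ℕ) :
    ‖ghostN p N ν w n‖ ≤ 1 := by
  unfold ghostN
  refine finprod_induction (fun z : PadicComplex p ↦ ‖z‖ ≤ 1) (by rw [norm_one])
    (fun x y hx hy ↦ by
      rw [norm_mul]
      exact mul_le_one₀ hx (norm_nonneg _) hy) fun k ↦ ?_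
  split_ifs
  · rw [norm_pow]
    refine pow_le_one₀ (norm_nonneg _) ?_
    have h1 : ‖(1 + 2 * (p : PadicComplex p)) ^ k - 1‖ ≤ 1 := by
      have e : (1 + 2 * (p : PadicComplex p)) ^ k - 1 =
          (((1 + 2 * (p : ℤ)) ^ k - 1 : ℤ) : PadicComplex p) := by
        push_cast
        ring
      rw [e]
      exact IsUltrametricDist.norm_intCast_le_one _ _
    rw [sub_eq_add_neg]
    refine (IsUltrametricDist.norm_add_le_max _ _).trans (max_le hw ?_)
    rw [norm_neg]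
    exact h1
  · rw [norm_one]

/-! ### The series `T = S^{-x}` -/

theorem lp14_S0 : PowerSeries.constantCoeff (S52 C5) = 1 := by
  rw [S52_eq]
  exact constantCoeff_SN 5 2 five_ne C5

theorem lp14_g0 : PowerSeries.constantCoeff (gs52 C5) = 0 := by
  rw [gs52_eq]
  exact constantCoeff_gsN 5 2 five_ne C5

theorem lp14_gS : gs52 C5 * S52 C5 = X ^ 5 := by
  rw [gs52_eq, S52_eq]
  exact gsN_mul 5 2 five_ne C5

theorem lp14_sub {x : C5} (hx : ‖x‖ ≤ 1) (l : ℕ) : ‖-x - (l : C5)‖ ≤ 1 := by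
  rw [sub_eq_add_neg]
  refine (IsUltrametricDist.norm_add_le_max _ _).trans (max_le ?_ ?_)
  · rw [norm_neg]
    exact hx
  · rw [norm_neg]
    exact IsUltrametricDist.norm_natCast_le_one C5 l

/-- The conclusion for one frame. -/
theorem lp14_main {c : ℕ} (hc : c ≤ 1) (hb : Bnd52) (hcen : CentralTheorem52)
    (hL : Tendsto (fun n ↦ ∑ i ∈ Finset.range (n + 1),
      (1 : C5) ^ i * PowerSeries.coeff (5 * i) (R52 c C5 * S52 C5 ^ i)) atTop (𝓝 1))
    {x : C5} (hx : ‖x‖ ≤ 1) :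
    newtonPolygon 5 (fred (mt 5 (S52 C5) (Rc52 c C5 * GH.ppow (S52 C5) (-x)))) =
      newtonPolygon 5 (ghostN 5 2 c (121 ^ c * (1 + wx5 (2 * x)) - 1)) := by
  obtain ⟨T, hT⟩ : ∃ T : PowerSeries C5, T = GH.ppow (S52 C5) (-x) := ⟨_, rfl⟩
  rw [← hT]
  have hρ : (1 : ℝ) < 41 / 40 := by norm_num
  have hρ0 : (0 : ℝ) < 41 / 40 := by norm_num
  have hbc := hb.c c hc
  have hS : Bd (41 / 40) 1 (S52 C5) := by
    have h1 : S52 C5 = (S52 C5 - 1) + 1 := by ring
    rw [h1]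
    exact (hb.s.bS.mono_c (by norm_num)).add hρ0.le (Bd.one le_rfl)
  have hTb : Bd (41 / 40) 1 T := by
    rw [hT]
    exact hb.s.bS.ppow hρ0 lp14_S0 fac5 (by norm_num) (lp14_sub hx)
  have hTb1 : Bd 1 1 T := hTb.mono_r zero_le_one hρ.le
  obtain ⟨S1, hS1, hS1e⟩ := hb.s.cS
  obtain ⟨T1, hT1, hT1e⟩ := ppow_div hρ0 hb.s.bS lp14_S0 fac5 (by norm_num) (lp14_sub hx) hS1 hS1e
  rw [← hT] at hT1e
  have hmat : Mat52 c x = mt 5 (S52 C5) (R52 c C5 * T) := by
    funext i j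
    rw [hT]
    exact mat_eq_mt 5 lp14_S0 _ x i j
  have hrel : R52 c C5 * T * (1 - C (1 : C5) * X) =
      (1 - C (1 : C5) * gs52 C5) * (Rc52 c C5 * T) := by
    linear_combination T * hbc.rel
  have hw : ‖(121 : C5) ^ c * (1 + wx5 (2 * x)) - 1‖ ≤ 1 := by
    have h2 : ‖(2 : C5) * x‖ ≤ 1 := by
      rw [norm_mul]
      refine mul_le_one₀ ?_ (norm_nonneg _) hx
      exact_mod_cast IsUltrametricDist.norm_natCast_le_one C5 2
    have h3 : ‖wx5 (2 * x)‖ ≤ 1 := by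
      rw [norm_wx5 h2]
      linarith [norm_nonneg (2 * x)]
    rw [sub_eq_add_neg]
    refine (IsUltrametricDist.norm_add_le_max _ _).trans (max_le ?_ (by rw [norm_neg, norm_one]))
    rw [norm_mul]
    refine mul_le_one₀ ?_ (norm_nonneg _) ?_
    · rw [norm_pow]
      refine pow_le_one₀ (norm_nonneg _) ?_
      exact_mod_cast IsUltrametricDist.norm_natCast_le_one C5 121
    · refine (IsUltrametricDist.norm_add_le_max _ _).trans (max_le (by rw [norm_one]) h3)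
  refine np_cusp (p := 5) (c := 2) (by norm_num) hρ lp14_gS lp14_g0 lp14_S0 rfl rfl hS
    (hbc.bP.mul1 hρ0 hTb) (hbc.bPc.mul1 hρ0 hTb) (hbc.bP1.mul1 one_pos hTb1)
    (hbc.bPc1.mul1 one_pos hTb1) (one_mul 1) hrel ?_ (lp14_ghost_zero 5 2 c _)
    (fun n ↦ lp14_ghost_le 5 2 c hw n) ?_
  · exact ev_cusp_gen (p := 5) (c := 2) (by norm_num) hρ lp14_gS lp14_g0 hS hbc.bPc hT1 (one_mul 1)
      hbc.rel hT1e hL
  · rw [← hmat]
    exact hcen c hc x hx

/-- The evaluation for `c = 0`. -/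
theorem lp14_ev0 (hb : Bnd52) : Tendsto (fun n ↦ ∑ i ∈ Finset.range (n + 1),
    (1 : C5) ^ i * PowerSeries.coeff (5 * i) (R52 0 C5 * S52 C5 ^ i)) atTop (𝓝 1) :=
  ev_one_R (p := 5) (by norm_num) hb.hR lp14_S0 1

/-- The evaluation for `c = 1`. -/
theorem lp14_ev1 (hb : Bnd52) (hv : Vev52) : Tendsto (fun n ↦ ∑ i ∈ Finset.range (n + 1),
    (1 : C5) ^ i * PowerSeries.coeff (5 * i) (R52 1 C5 * S52 C5 ^ i)) atTop (𝓝 1) := by
  have hρ : (1 : ℝ) < 41 / 40 := by norm_num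
  have hρ0 : (0 : ℝ) < 41 / 40 := by norm_num
  have hbc := hb.c 1 le_rfl
  have hS : Bd (41 / 40) 1 (S52 C5) := by
    have h1 : S52 C5 = (S52 C5 - 1) + 1 := by ring
    rw [h1]
    exact (hb.s.bS.mono_c (by norm_num)).add hρ0.le (Bd.one le_rfl)
  have hv1 : Bd (41 / 40) 2 (C (5 : C5) - C (5 : C5) * X : PowerSeries C5) := by
    have h5 : ‖(5 : C5)‖ ≤ 1 := by exact_mod_cast IsUltrametricDist.norm_natCast_le_one C5 5
    refine Bd.sub hρ0.le ((Bd.of_C h5).mono_c (by norm_num)) ?_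
    have h6 := (Bd.of_C (ρ := 41 / 40) h5).mul hρ0 (Bd.X_le (K := C5) hρ0.le le_rfl)
    exact h6.mono_c (by norm_num)
  have hva : (-4 : C5) ≠ 0 := by norm_num
  refine ev_one_of (p := 5) (c := 2) (v := v52 C5) (va := -4) (by norm_num) hρ lp14_gS lp14_g0 hS
    hbc.bPc hv1 (one_mul 1) hbc.rel ?_ hva ?_
  · have e4 : (C (-4 : C5) : PowerSeries C5) = -4 := by
      rw [map_neg, map_ofNat]
    have e5 : (C (5 : C5) : PowerSeries C5) = 5 := by rw [map_ofNat]
    rw [v52, e4, e5, map_one]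
    ring
  · refine tendsto_const_nhds.congr' ?_
    refine Filter.eventually_atTop.2 ⟨2, fun n hn ↦ ?_⟩
    have h1 : ∀ i ∈ Finset.range (n + 1), (1 : C5) ^ i *
        PowerSeries.coeff (5 * i) (R52 1 C5 * v52 C5 * S52 C5 ^ i) =
        PowerSeries.coeff i (v52 C5) := fun i _ ↦ by
      rw [hv i, one_pow, one_mul]
    show (-4 : C5) = ∑ i ∈ Finset.range (n + 1), (1 : C5) ^ i *
        PowerSeries.coeff (5 * i) (R52 1 C5 * v52 C5 * S52 C5 ^ i)
    rw [Finset.sum_congr rfl h1]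
    obtain ⟨m, rfl⟩ : ∃ m, n = m + 2 := ⟨n - 2, by omega⟩
    have e10 : v52 C5 = 1 - C (10 : C5) * X + C (5 : C5) * X ^ 2 := by
      rw [v52, map_ofNat, map_ofNat]
    have h2 : ∀ i, PowerSeries.coeff i (v52 C5) =
        (if i = 0 then (1 : C5) else 0) - 10 * (if i = 1 then (1 : C5) else 0) +
          5 * (if i = 2 then (1 : C5) else 0) := fun i ↦ by
      rw [e10, map_add, map_sub, coeff_C_mul, coeff_C_mul, coeff_one, coeff_X, coeff_X_pow]
    rw [Finset.sum_congr rfl fun i _ ↦ h2 i, Finset.sum_add_distrib, Finset.sum_sub_distrib,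
      ← Finset.mul_sum, ← Finset.mul_sum, Finset.sum_ite_eq', Finset.sum_ite_eq',
      Finset.sum_ite_eq', if_pos (Finset.mem_range.2 (by omega)),
      if_pos (Finset.mem_range.2 (by omega)), if_pos (Finset.mem_range.2 (by omega))]
    norm_num

/-- `1 + 20 h - 25 h²`. -/
theorem lp14_w_subst : (1 + C (20 : C5) * X - C (25 : C5) * X ^ 2 : PowerSeries C5).subst
    (gs52 C5) = 1 + 20 * gs52 C5 - 25 * gs52 C5 ^ 2 := by
  have hs : HasSubst (gs52 C5) := HasSubst.of_constantCoeff_zero' lp14_g0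
  have hC : ∀ a : C5, substAlgHom hs (C a : PowerSeries C5) = C a := fun a ↦ by
    rw [coe_substAlgHom]
    exact PowerSeries.subst_C _
  rw [← coe_substAlgHom hs, map_sub, map_add, map_mul, map_mul, map_pow, substAlgHom_X, map_one,
    hC, hC, map_ofNat, map_ofNat]

/-- Change of the frame, `c = 1`. -/
theorem lp14_rel : Rc52 1 C5 * (1 + C (20 : C5) * X - C (25 : C5) * X ^ 2) =
    (1 + C (20 : C5) * X - C (25 : C5) * X ^ 2 : PowerSeries C5).subst (gs52 C5) * Re52 C5 := by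
  rw [lp14_w_subst]
  have e20 : (C (20 : C5) : PowerSeries C5) = 20 := by rw [map_ofNat]
  have e25 : (C (25 : C5) : PowerSeries C5) = 25 := by rw [map_ofNat]
  rw [e20, e25]
  obtain ⟨u, hu⟩ : ∃ u : PowerSeries C5, u = 1 - 5 * X := ⟨_, rfl⟩
  obtain ⟨w, hw⟩ : ∃ w : PowerSeries C5, w = 1 + 20 * gs52 C5 - 25 * gs52 C5 ^ 2 := ⟨_, rfl⟩
  have hu0 : PowerSeries.constantCoeff u = 1 := by
    rw [hu, map_sub, map_mul, constantCoeff_X, mul_zero, map_one, sub_zero]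
  have hw0 : PowerSeries.constantCoeff w = 1 := by
    rw [hw, map_sub, map_add, map_mul, map_mul, map_pow, lp14_g0, map_one]
    ring
  have h1 : u * invOfUnit u 1 = 1 := mul_inv_of hu0
  have h2 : (u * w) * invOfUnit (u * w) 1 = 1 :=
    mul_inv_of (by rw [map_mul, hu0, hw0, one_mul])
  have h3 : invOfUnit u 1 = w * invOfUnit (u * w) 1 := by
    linear_combination (w * invOfUnit (u * w) 1) * h1 - invOfUnit u 1 * h2
  have eR : Rc52 1 C5 = (1 - 5 * gs52 C5) * invOfUnit u 1 := by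
    rw [Rc52, hu]
    simp only [Nat.sub_self, pow_zero, mul_one]
  have eE : Re52 C5 = (1 - 5 * gs52 C5) * (1 + 20 * X - 25 * X ^ 2) * invOfUnit (u * w) 1 := by
    rw [Re52, hu, hw]
  rw [← hw, eR, eE, h3]
  ring

/-- **The cusp for `(5, 2)`.** -/
theorem cen52 (hb : Bnd52) (hv : Vev52) (hc : CentralTheorem52) : Cen52 := by
  intro c hc1 x hx
  have hρ : (1 : ℝ) < 41 / 40 := by norm_num
  have hρ0 : (0 : ℝ) < 41 / 40 := by norm_num
  rcases (by omega : c = 0 ∨ c = 1) with rfl | rfl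
  · have h1 := lp14_main (Nat.zero_le 1) hb hc (lp14_ev0 hb) hx
    have h2 : Mc52 0 x = mt 5 (S52 C5) (Rc52 0 C5 * GH.ppow (S52 C5) (-x)) := by
      funext i j
      unfold Mc52
      rw [if_pos rfl]
    rw [h2]
    exact h1
  · have h1 := lp14_main le_rfl hb hc (lp14_ev1 hb hv) hx
    rw [← h1]
    have hbc := hb.c 1 le_rfl
    have hS : Bd (41 / 40) 1 (S52 C5) := by
      have h1 : S52 C5 = (S52 C5 - 1) + 1 := by ring
      rw [h1]
      exact (hb.s.bS.mono_c (by norm_num)).add hρ0.le (Bd.one le_rfl)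
    have hTb : Bd (41 / 40) 1 (GH.ppow (S52 C5) (-x)) :=
      hb.s.bS.ppow hρ0 lp14_S0 fac5 (by norm_num) (lp14_sub hx)
    have hwb : Bd (41 / 40) 1 (1 + C (20 : C5) * X - C (25 : C5) * X ^ 2 : PowerSeries C5) := by
      have n5 : ‖(5 : C5)‖ ≤ 5⁻¹ := norm_five_C5.le
      have n4 : ‖(4 : C5)‖ ≤ 1 := by exact_mod_cast IsUltrametricDist.norm_natCast_le_one C5 4
      have n20 : ‖(20 : C5)‖ ≤ 5⁻¹ := by
        have e : (20 : C5) = 4 * 5 := by norm_num
        rw [e, norm_mul]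
        calc ‖(4 : C5)‖ * ‖(5 : C5)‖ ≤ 1 * 5⁻¹ :=
              mul_le_mul n4 n5 (norm_nonneg _) zero_le_one
          _ = 5⁻¹ := one_mul _
      have n25 : ‖(25 : C5)‖ ≤ 5⁻¹ * 5⁻¹ := by
        have e : (25 : C5) = 5 * 5 := by norm_num
        rw [e, norm_mul]
        exact mul_le_mul n5 n5 (norm_nonneg _) (by norm_num)
      have o : Bd (41 / 40) 1 (1 : PowerSeries C5) := Bd.one le_rfl
      have b1 : Bd (41 / 40) 1 (C (20 : C5) * (X ^ 1 * 1) : PowerSeries C5) :=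
        o.CX hρ0 (by nlinarith)
      have b2 : Bd (41 / 40) 1 (C (25 : C5) * (X ^ 2 * 1) : PowerSeries C5) :=
        o.CX hρ0 (by nlinarith)
      rw [pow_one, mul_one] at b1
      rw [mul_one] at b2
      exact (o.add hρ0.le b1).sub hρ0.le b2
    have h2 : Mc52 1 x = mt 5 (S52 C5) (Re52 C5 * GH.ppow (S52 C5) (-x)) := by
      funext i j
      unfold Mc52
      rw [if_neg one_ne_zero]
    rw [h2]
    have hw0 : PowerSeries.constantCoeff
        (1 + C (20 : C5) * X - C (25 : C5) * X ^ 2 : PowerSeries C5) = 1 := by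
      rw [map_sub, map_add, map_mul, map_mul, map_pow, constantCoeff_X, map_one]
      ring
    have hrel : Rc52 1 C5 * GH.ppow (S52 C5) (-x) *
        (1 + C (20 : C5) * X - C (25 : C5) * X ^ 2) =
        (1 + C (20 : C5) * X - C (25 : C5) * X ^ 2 : PowerSeries C5).subst (gs52 C5) *
          (Re52 C5 * GH.ppow (S52 C5) (-x)) := by
      linear_combination GH.ppow (S52 C5) (-x) * lp14_rel
    have key : ∀ m, fred (mt 5 (S52 C5) (Rc52 1 C5 * GH.ppow (S52 C5) (-x))) m =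
        fred (mt 5 (S52 C5) (Re52 C5 * GH.ppow (S52 C5) (-x))) m := fun m ↦
      fred_toep (p := 5) (c := 2) (by norm_num) hρ lp14_gS lp14_g0 hS
        (hbc.bPc.mul1 hρ0 hTb) ((hb.e.mono_c (by norm_num)).mul1 hρ0 hTb) hwb hw0 hrel m
    rw [funext key]

end D52

end GH
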