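import Pool.Agent.GH.LN.EStm
import Pool.Agent.GH.LN.GrN

/-!
# `(5,2)`: the equation of `S` and its growth
-/

set_option autoImplicit false

open PowerSeries Filter Topology

noncomputable section

namespace GH

namespace D52

/-- The equation of `S`. -/
theorem eq52 (h : LN.K52) : Eq52 := by
  unfold Eq52
  apply LN.sbN_inj 5 2 ℤ
  have h1 := h.rel
  have h2 := LN.AN_expand 5 2 five_ne ℤ
  have h3 := LN.gsN_subst 5 2 five_ne ℤ
  have h4 := LN.mul_inv_of (LN.constantCoeff_AN 5 2 ℤ)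
  rw [S52_eq, gs52_eq]
  simp only [map_mul, map_pow, map_sub, map_one, LN.sbN_X, map_ofNat]
  rw [LN.sbN_apply, LN.sbN_apply, h3]
  rw [h2] at h1
  linear_combination (invOfUnit (LN.AN 5 2 ℤ) 1) * h1 -
    ((LN.SN 5 2 five_ne ℤ).subst (hauptN 5 2 ℤ) *
      (1 - (hauptN 5 2 ℤ).expand 5 five_ne) *
      (1 - 5 * (hauptN 5 2 ℤ).expand 5 five_ne) ^ 5 -
      (1 - hauptN 5 2 ℤ) ^ 5 * (1 - 5 * hauptN 5 2 ℤ)) * h4

/-- `T = 1/S`. -/
private def x52_T : PowerSeries ℤ := invOfUnit (S52 ℤ) 1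

private theorem x52_c : PowerSeries.constantCoeff (S52 ℤ) = 1 :=
  LN.constantCoeff_SN 5 2 five_ne ℤ

private theorem x52_ST : S52 ℤ * x52_T = 1 := LN.mul_inv_of x52_c

private theorem x52_gs : gs52 ℤ = X ^ 5 * x52_T := rfl

/-- `1 - 5g`. -/
private def x52_W : PowerSeries ℤ := 1 + C (-5 : ℤ) * (X ^ 5 * x52_T)

/-- `1/(1-5g)`. -/
private def x52_V : PowerSeries ℤ := invOfUnit x52_W 1

private theorem x52_cW : PowerSeries.constantCoeff x52_W = 1 := by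
  unfold x52_W
  simp

private theorem x52_WV : x52_W * x52_V = 1 := LN.mul_inv_of x52_cW

private theorem x52_W_eq : x52_W = 1 - 5 * gs52 ℤ := by
  rw [x52_gs]
  unfold x52_W
  simp only [map_neg, map_ofNat]
  ring

/-- The equation solved for `S`. -/
private theorem x52_S (h : Eq52) : S52 ℤ =
    (1 + C (-10 : ℤ) * (X ^ 1 * 1) + C (35 : ℤ) * (X ^ 2 * 1) + C (-60 : ℤ) * (X ^ 3 * 1) +
      C (55 : ℤ) * (X ^ 4 * 1) + C (-25 : ℤ) * (X ^ 5 * 1) + C (5 : ℤ) * (X ^ 6 * 1) +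
      C (-25 : ℤ) * (X ^ 10 * x52_T ^ 1) + C (250 : ℤ) * (X ^ 15 * x52_T ^ 2) +
      C (-1250 : ℤ) * (X ^ 20 * x52_T ^ 3) + C (3125 : ℤ) * (X ^ 25 * x52_T ^ 4) +
      C (-3125 : ℤ) * (X ^ 30 * x52_T ^ 5)) * x52_V ^ 5 := by
  have h1 : S52 ℤ * (1 - gs52 ℤ) * x52_W ^ 5 = (1 - (X : PowerSeries ℤ)) ^ 5 * (1 - 5 * X) := by
    rw [x52_W_eq]
    exact h
  have h2 : S52 ℤ * (1 - gs52 ℤ) = S52 ℤ - X ^ 5 := by
    rw [x52_gs]
    linear_combination (-(X : PowerSeries ℤ) ^ 5) * x52_ST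
  rw [h2] at h1
  have h3 : x52_W = 1 - 5 * (X ^ 5 * x52_T) := by
    rw [x52_W_eq, x52_gs]
  have h4 : S52 ℤ * x52_W ^ 5 = 1 + C (-10 : ℤ) * (X ^ 1 * 1) + C (35 : ℤ) * (X ^ 2 * 1) +
      C (-60 : ℤ) * (X ^ 3 * 1) +
      C (55 : ℤ) * (X ^ 4 * 1) + C (-25 : ℤ) * (X ^ 5 * 1) + C (5 : ℤ) * (X ^ 6 * 1) +
      C (-25 : ℤ) * (X ^ 10 * x52_T ^ 1) + C (250 : ℤ) * (X ^ 15 * x52_T ^ 2) +
      C (-1250 : ℤ) * (X ^ 20 * x52_T ^ 3) + C (3125 : ℤ) * (X ^ 25 * x52_T ^ 4) +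
      C (-3125 : ℤ) * (X ^ 30 * x52_T ^ 5) := by
    simp only [map_neg, map_ofNat]
    have h5 : S52 ℤ * x52_W ^ 5 = (1 - (X : PowerSeries ℤ)) ^ 5 * (1 - 5 * X) +
        X ^ 5 * x52_W ^ 5 := by linear_combination h1
    rw [h5, h3]
    ring
  have h5 : x52_W ^ 5 * x52_V ^ 5 = 1 := by
    rw [← mul_pow, x52_WV, one_pow]
  rw [← h4, mul_assoc, h5, mul_one]

private theorem x52_step {m : ℕ} (h : Eq52) (hS : LN.Gr 5 6 m (S52 ℤ)) :
    LN.Gr 5 6 (m + 1) (S52 ℤ) := by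
  have hd : 1 ≤ 6 := by norm_num
  have hT : LN.Gr 5 6 m x52_T := hS.inv hd x52_c x52_ST
  have h1 : LN.Gr 5 6 (m + 1) (1 : PowerSeries ℤ) := LN.gr_one hd _
  have hW : LN.Gr 5 6 (m + 1) x52_W :=
    h1.add (hT.CX hd (-5) 1 5 (by norm_num) (by norm_num) (by omega))
  have hV : LN.Gr 5 6 (m + 1) x52_V := hW.inv hd x52_cW x52_WV
  rw [x52_S h]
  refine LN.Gr.mul hd ?_ (hV.pow hd 5)
  refine LN.Gr.add (LN.Gr.add (LN.Gr.add (LN.Gr.add (LN.Gr.add (LN.Gr.add (LN.Gr.add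
    (LN.Gr.add (LN.Gr.add (LN.Gr.add (LN.Gr.add h1 ?_) ?_) ?_) ?_) ?_) ?_) ?_) ?_) ?_) ?_) ?_
  · exact h1.CX hd (-10) 1 1 (by norm_num) (by norm_num) (by omega)
  · exact h1.CX hd 35 1 2 (by norm_num) (by norm_num) (by omega)
  · exact h1.CX hd (-60) 1 3 (by norm_num) (by norm_num) (by omega)
  · exact h1.CX hd 55 1 4 (by norm_num) (by norm_num) (by omega)
  · exact h1.CX hd (-25) 1 5 (by norm_num) (by norm_num) (by omega)
  · exact h1.CX hd 5 1 6 (by norm_num) (by norm_num) (by omega)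
  · exact (hT.pow hd 1).CX hd (-25) 2 10 (by norm_num) (by norm_num) (by omega)
  · exact (hT.pow hd 2).CX hd 250 3 15 (by norm_num) (by norm_num) (by omega)
  · exact (hT.pow hd 3).CX hd (-1250) 4 20 (by norm_num) (by norm_num) (by omega)
  · exact (hT.pow hd 4).CX hd 3125 5 25 (by norm_num) (by norm_num) (by omega)
  · exact (hT.pow hd 5).CX hd (-3125) 5 30 (by norm_num) (by norm_num) (by omega)

/-- The growth of `S`. -/
theorem gr52 (h : Eq52) : Gr52 := by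
  have h1 : LN.GrA 5 6 (S52 ℤ) := LN.grA_of_step fun m hm => x52_step h hm
  intro n
  exact_mod_cast h1 n

end D52

end GH
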