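import Pool.Agent.GH.LN.PStm
import Pool.Agent.GH.LN.CompN
import Pool.Agent.GH.LN.PHelp
import Pool.Agent.GH.LN.MtN
import Pool.Agent.GH.D5.UBound5
import Pool.Agent.GH.D5.Param5
import Pool.Agent.GH.D5.QHaupt5

/-!
# Ghost conjecture `(5,2)`: glue and decay from level one
-/

open PowerSeries Filter Topology

noncomputable section

namespace GH

namespace D52

open LN D5 GP DP

/-- `1 - 5X`. -/
def lp8_a : PowerSeries C5 := 1 - 5 * X

/-- `r = X (1-X)^2 / (1-5X)^2`. -/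
def lp8_r : PowerSeries C5 := X * (1 - X) ^ 2 * invOfUnit (lp8_a ^ 2) 1

theorem lp8_five : ‖(5 : C5)‖ = 5⁻¹ := by
  have h := d5pm_norm_natCast 5
  rw [show ((5 : ℕ) : C5) = 5 by norm_num] at h
  rw [h]
  have h2 : ((5 : ℕ) : ℚ_[5]) = ((5 : ℕ) : ℚ_[5]) := rfl
  rw [Padic.norm_p]
  norm_num

theorem lp8_X5 : Bd (41 / 40) (1 / 4) (5 * X : PowerSeries C5) := by
  have h1 : Bd (41 / 40) (1 : ℝ) (1 : PowerSeries C5) := Bd.one le_rfl
  have h2 := Bd.CX (K := C5) (ρ := 41 / 40) (e := 1 / 4) (by norm_num) h1 (a := 5) (k := 1)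
    (by rw [lp8_five]; norm_num)
  have e : (C (5 : C5) * (X ^ 1 * 1) : PowerSeries C5) = 5 * X := by
    rw [pow_one, mul_one, map_ofNat]
  rwa [e] at h2

theorem lp8_ba : Bd (41 / 40) 1 lp8_a := by
  unfold lp8_a
  exact (Bd.one le_rfl).sub (by norm_num) (lp8_X5.mono_c (by norm_num))

theorem lp8_a0 : PowerSeries.constantCoeff lp8_a = 1 := by
  unfold lp8_a
  rw [map_sub, map_mul, PowerSeries.constantCoeff_X, mul_zero, sub_zero, map_one]

theorem lp8_a0' (n : ℕ) : PowerSeries.constantCoeff (lp8_a ^ n) = 1 := by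
  rw [map_pow, lp8_a0, one_pow]

theorem lp8_a4 : Bd (41 / 40) (1 / 4) (lp8_a ^ 4 - 1) := by
  have e : lp8_a ^ 4 - 1 = (-(5 * X)) * (lp8_a ^ 3 + lp8_a ^ 2 + lp8_a + 1) := by
    unfold lp8_a
    ring
  rw [e]
  have h0 : (0 : ℝ) < 41 / 40 := by norm_num
  refine (lp8_X5.neg).mul1 h0 ?_
  exact (((lp8_ba.pow1 h0 3).add h0.le (lp8_ba.pow1 h0 2)).add h0.le lp8_ba).add h0.le
    (Bd.one le_rfl)

theorem lp8_r0 : PowerSeries.constantCoeff lp8_r = 0 := by
  unfold lp8_r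
  rw [map_mul, map_mul, PowerSeries.constantCoeff_X, zero_mul, zero_mul]

theorem lp8_br : Bd (41 / 40) (11 / 10) lp8_r := by
  have h0 : (0 : ℝ) < 41 / 40 := by norm_num
  have hX : Bd (41 / 40) (41 / 40) (X : PowerSeries C5) := Bd.X_le h0.le le_rfl
  have h1 : Bd (41 / 40) (41 / 40) (1 - X : PowerSeries C5) :=
    (Bd.one (by norm_num)).sub h0.le hX
  have h2 : Bd (41 / 40) 1 (invOfUnit (lp8_a ^ 2) 1) :=
    Bd.inv h0 (lp8_ba.pow1 h0 2) (lp8_a0' 2) (mul_inv_of (lp8_a0' 2))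
  have h3 := (hX.mul h0 (h1.pow h0 2)).mul h0 h2
  exact h3.mono_c (by norm_num)

/-- `hauptmodul 5 = r(f)`. -/
theorem lp8_hr (hK : LN.K52) :
    hauptmodul 5 C5 = lp8_r.subst (hauptN 5 2 C5) := by
  set f := hauptN 5 2 C5 with hf
  have hs : HasSubst f := HasSubst.of_constantCoeff_zero' (constantCoeff_hauptN 5 2)
  have h1 := congrArg (PowerSeries.map (Int.castRingHom C5)) hK.f1
  simp only [map_mul, map_pow, map_sub, map_one, map_ofNat, map_hauptN, map_hauptmodul] at h1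
  rw [← hf] at h1
  have e1 : PowerSeries.subst f lp8_a = 1 - 5 * f := by
    unfold lp8_a
    rw [← coe_substAlgHom hs]
    simp only [map_mul, map_sub, map_one, map_ofNat]
    rw [coe_substAlgHom hs, subst_X hs]
  have e2 : PowerSeries.subst f lp8_r =
      f * (1 - f) ^ 2 * PowerSeries.subst f (invOfUnit (lp8_a ^ 2) 1) := by
    unfold lp8_r
    rw [← coe_substAlgHom hs]
    simp only [map_mul, map_sub, map_one, map_pow]
    rw [coe_substAlgHom hs, subst_X hs]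
  have e3 : (1 - 5 * f) ^ 2 * PowerSeries.subst f (invOfUnit (lp8_a ^ 2) 1) = 1 := by
    have h2 := congrArg (PowerSeries.subst f) (mul_inv_of (lp8_a0' 2))
    rw [← coe_substAlgHom hs] at h2
    simp only [map_mul, map_one, map_pow] at h2
    rw [coe_substAlgHom hs, e1] at h2
    exact h2
  rw [e2, ← h1, mul_assoc, e3, mul_one]

theorem lp8_phi (hK : LN.K52) (y : C5) :
    D5.phiPow (2 * y) = APow52 y * (ppow (lp8_a ^ 4) y).subst (hauptN 5 2 C5) := by
  have hf0 := constantCoeff_hauptN (R := C5) 5 2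
  have hs : HasSubst (hauptN 5 2 C5) := HasSubst.of_constantCoeff_zero' hf0
  have h1 := congrArg (PowerSeries.map (Int.castRingHom C5)) hK.b1
  simp only [map_mul, map_pow, map_sub, map_one, map_ofNat, map_hauptN, map_phi5, map_AN] at h1
  have hp := constantCoeff_phi5 C5
  have hA : PowerSeries.constantCoeff (AN 5 2 C5) = 1 := constantCoeff_AN 5 2 C5
  have e1 : PowerSeries.subst (hauptN 5 2 C5) (lp8_a ^ 4) = (1 - 5 * hauptN 5 2 C5) ^ 4 := by
    unfold lp8_a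
    rw [← coe_substAlgHom hs]
    simp only [map_mul, map_sub, map_one, map_ofNat, map_pow]
    rw [coe_substAlgHom hs, subst_X hs]
  have e0 : PowerSeries.constantCoeff ((1 - 5 * hauptN 5 2 C5) ^ 4) = 1 := by
    rw [map_pow, map_sub, map_mul, hf0, mul_zero, sub_zero, map_one, one_pow]
  rw [ppow_substN (lp8_a0' 4) hf0, e1]
  show ppow (phi5 C5) (2 * y) = ppow (AN 5 2 C5) y * _
  rw [two_mul, ub_ppow_add hp, ← ub_ppow_mul hp hp, ← sq, h1, ub_ppow_mul hA e0]

/-- Row LN-P8, the glue. -/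
theorem glu52 (h : LN.Tr5) (hK : LN.K52) :
    LN.GluN 5 2 (fun y ↦ D5.wx5 (2 * y)) (fun y ↦ APow52 y) := by
  intro E hE
  obtain ⟨u, hu, -⟩ := h E hE
  have key : ∀ y : C5, ∃ v : ℕ → C5, ‖y‖ ≤ 1 → (v 0 = 1 ∧ (∀ n, ‖v n‖ * (41 / 40 : ℝ) ^ n ≤ 1) ∧
      evSp (D5.wx5 (2 * y)) E = APow52 y * (PowerSeries.mk v).subst (hauptN 5 2 C5)) := by
    intro y
    by_cases hy : ‖y‖ ≤ 1
    · have h2y : ‖2 * y‖ ≤ 1 := by
        rw [norm_mul]
        have h2 : ‖(2 : C5)‖ ≤ 1 := by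
          have := IsUltrametricDist.norm_natCast_le_one C5 2
          rwa [Nat.cast_ofNat] at this
        exact mul_le_one₀ h2 (norm_nonneg _) hy
      obtain ⟨u0, ub, ue⟩ := hu (2 * y) h2y
      have hub : ∀ n, ‖u n (2 * y)‖ * (11 / 10 : ℝ) ^ n ≤ 1 := fun n =>
        (mul_le_mul_of_nonneg_left (pow_le_pow_left₀ (by norm_num) (by norm_num) n)
          (norm_nonneg _)).trans (ub n)
      have hQ : Bd (41 / 40) 1 (ppow (lp8_a ^ 4) y) :=
        Bd.ppow (by norm_num) lp8_a4 (lp8_a0' 4) (t := 3 / 2) d5_ubn_fac (by norm_num)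
          fun l => by
            rw [sub_eq_add_neg]
            refine (IsUltrametricDist.norm_add_le_max _ _).trans ?_
            rw [norm_neg]
            exact max_le hy (IsUltrametricDist.norm_natCast_le_one C5 l)
      obtain ⟨v, v0, vb, ve⟩ := glueN_of (p := 5) (N := 2) (u := fun n => u n (2 * y))
        lp8_r0 (lp8_hr hK) (by norm_num : (0 : ℝ) < 41 / 40) (by norm_num : (0 : ℝ) < 11 / 10)
        lp8_br u0 hub ue (lp8_phi hK y) hQ (ub_const_ppow (lp8_a0' 4) y)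
      exact ⟨v, fun _ => ⟨v0, vb, ve⟩⟩
    · exact ⟨0, fun h' => absurd h' hy⟩
  choose v hv using key
  exact ⟨fun n y => v y n, fun y hy => hv y hy⟩

/-- Row LN-P8, the decay. -/
theorem ph52 (h : LN.Tr5) (hK : LN.K52) : LN.PhN 5 2 := by
  intro E hE w hw l
  obtain ⟨u, -, h2⟩ := h E hE
  have hw1 : ‖w‖ < 1 := hw.trans_lt (by norm_num)
  exact phiN_of (p := 5) (N := 2) E hE lp8_r0 (lp8_hr hK) (by norm_num : (0 : ℝ) < 41 / 40)
    (by norm_num : (0 : ℝ) < 11 / 10) lp8_br hw1 (h2 w hw) l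

end D52

end GH
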