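import Pool.Agent.GH.LN.PHelp

/-!
# `(5,2)`: the matrices of `U_5` on the cusp forms
-/

open PowerSeries Filter Topology

noncomputable section

namespace GH

namespace LN

theorem lp17_map_thqN {R S : Type*} [CommRing R] [CommRing S] (φ : R →+* S) (F : PowerSeries R) :
    PowerSeries.map φ (thqN F) = thqN (PowerSeries.map φ F) := by
  ext n
  rw [PowerSeries.coeff_map, thqN, thqN, coeff_mk, coeff_mk, map_mul, map_natCast,
    PowerSeries.coeff_map]

theorem lp17_map_fxU (p N : ℕ) {R S : Type*} [CommRing R] [CommRing S] (φ : R →+* S) :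
    PowerSeries.map φ (fxU p N R) = fxU p N S := by
  unfold fxU
  rw [map_pow, map_mul, map_etaNp, map_inv_etaN]

theorem lp17_map_dlogN (p N : ℕ) {R S : Type*} [CommRing R] [CommRing S] (φ : R →+* S) :
    PowerSeries.map φ (dlogN p N R) = dlogN p N S := by
  unfold dlogN
  rw [map_add, map_one, map_mul, lp17_map_thqN, map_inv_of φ (fx_constantCoeff_U p N R),
    lp17_map_fxU]

theorem lp17_map_eisTwo {R S : Type*} [CommRing R] [CommRing S] (φ : R →+* S) :
    PowerSeries.map φ (eisTwo R) = eisTwo S := by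
  unfold eisTwo
  rw [map_add, map_one]
  congr 1
  ext n
  rw [PowerSeries.coeff_map, coeff_mk, coeff_mk, map_mul, map_ofNat, map_sum]
  congr 1
  refine Finset.sum_congr rfl fun d _ ↦ ?_
  split_ifs
  · rw [map_natCast]
  · rw [map_zero]

end LN

namespace D52

open LN D5

theorem lp17_W (hW : LN.W52) : eisTwo C5 * ((1 - hauptN 5 2 C5) * (1 - 5 * hauptN 5 2 C5)) =
    dlogN 5 2 C5 * (1 + 20 * hauptN 5 2 C5 - 25 * hauptN 5 2 C5 ^ 2) := by
  have h := congrArg (PowerSeries.map (algebraMap ℚ C5)) hW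
  simp only [map_mul, map_sub, map_add, map_pow, map_one, map_ofNat, LN.map_hauptN,
    lp17_map_dlogN, lp17_map_eisTwo] at h
  exact h

theorem lp17_cusp : cuspN 5 2 C5 = 1 - hauptN 5 2 C5 := by
  unfold cuspN
  rw [if_neg (by norm_num), if_pos rfl]

theorem lp17_cg : PowerSeries.constantCoeff (gs52 C5) = 0 := LN.constantCoeff_gsN 5 2 five_ne C5

theorem lp17_cS : PowerSeries.constantCoeff (S52 C5) = 1 := LN.constantCoeff_SN 5 2 five_ne C5

theorem lp17_sg : sbN 5 2 C5 (gs52 C5) = (hauptN 5 2 C5).expand 5 five_ne := by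
  rw [sbN_apply, gs52_eq, LN.gsN_subst]

/-- `1 - g`. -/
theorem lp17_i1 : (1 - gs52 C5) * invOfUnit (1 - gs52 C5) 1 = 1 :=
  LN.mul_inv_of (by rw [map_sub, map_one, lp17_cg, sub_zero])

/-- `(1-5h)(1+20g-25g²)`. -/
theorem lp17_i2 : ((1 - 5 * X) * (1 + 20 * gs52 C5 - 25 * gs52 C5 ^ 2)) *
    invOfUnit ((1 - 5 * X) * (1 + 20 * gs52 C5 - 25 * gs52 C5 ^ 2)) 1 = 1 :=
  LN.mul_inv_of (by simp [lp17_cg])

/-- `R`. -/
theorem lp17_cR : PowerSeries.constantCoeff (R52 0 C5) = 1 := by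
  unfold R52
  have h1 : PowerSeries.constantCoeff (ps52 0 (gs52 C5)) = 1 := by
    unfold ps52
    simp [lp17_cg]
  have h2 : PowerSeries.constantCoeff (ns52 0 (X : PowerSeries C5)) = 1 := by
    unfold ns52
    simp
  rw [map_mul, map_mul, LN.constantCoeff_inv lp17_cS, LN.constantCoeff_inv h1, h2, one_mul, one_mul]

theorem lp17_i3 : R52 0 C5 * invOfUnit (R52 0 C5) 1 = 1 := LN.mul_inv_of lp17_cR

theorem lp17_zero (hb : Bnd52) (x : C5) :
    IsUMatN (p := 5) 2 (APow52 x * (eisTwo C5 ^ 0 * cuspN 5 2 C5)) (Mc52 0 x) := by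
  have hf0 : PowerSeries.constantCoeff (hauptN 5 2 C5) = 0 := LN.constantCoeff_hauptN 5 2
  have h := isUMatN_mt (p := 5) (N := 2) (R := R52 0 C5)
    (V := (1 - X) * invOfUnit (1 - gs52 C5) 1) (Pc := Rc52 0 C5)
    (W := eisTwo C5 ^ 0 * cuspN 5 2 C5) hb.hR ?_ ?_ ?_ x
  · exact h
  · rw [pow_zero, one_mul, lp17_cusp, map_sub, map_one, hf0, sub_zero]
  · have h1 := congrArg (sbN 5 2 C5) lp17_i1
    rw [pow_zero, one_mul, lp17_cusp, ← sbN_apply]
    simp only [map_mul, map_sub, map_one, sbN_X, lp17_sg] at h1 ⊢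
    linear_combination (-(1 - hauptN 5 2 C5)) * h1
  · have h1 := (hb.c 0 (by norm_num)).rel
    have h2 := lp17_i1
    rw [map_one, one_mul, one_mul] at h1
    linear_combination (invOfUnit (1 - gs52 C5) 1) * h1 + Rc52 0 C5 * h2

theorem lp17_one (hb : Bnd52) (hW : LN.W52) (x : C5) :
    IsUMatN (p := 5) 2 (APow52 x * (eisTwo C5 ^ 1 * cuspN 5 2 C5)) (Mc52 1 x) := by
  have hf0 : PowerSeries.constantCoeff (hauptN 5 2 C5) = 0 := LN.constantCoeff_hauptN 5 2
  have h := isUMatN_mt (p := 5) (N := 2) (R := R52 0 C5)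
    (V := Re52 C5 * invOfUnit (R52 0 C5) 1) (Pc := Re52 C5)
    (W := eisTwo C5 ^ 1 * cuspN 5 2 C5) hb.hR ?_ ?_ ?_ x
  · exact h
  · have h1 : PowerSeries.constantCoeff (eisTwo C5) = 1 := by
      unfold eisTwo
      rw [map_add, map_one, ← PowerSeries.coeff_zero_eq_constantCoeff_apply, coeff_mk]
      simp
    rw [pow_one, map_mul, lp17_cusp, map_sub, map_one, hf0, sub_zero, mul_one, h1]
  · have e1 := lp17_W hW
    have e2 := congrArg (PowerSeries.expand 5 five_ne) e1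
    have hd := LN.dlogN_expand 5 2 five_ne (LN.hauptN_expand 5 2 five_ne C5) (R := R52 0 C5) hb.hR
    have h2 := congrArg (sbN 5 2 C5) lp17_i2
    have h3 := congrArg (sbN 5 2 C5) lp17_i3
    rw [← sbN_apply] at hd
    rw [pow_one, lp17_cusp, ← sbN_apply]
    unfold Re52
    simp only [map_mul, map_sub, map_add, map_pow, map_one, map_ofNat, sbN_X, lp17_sg] at e2 h2 h3 ⊢
    rw [hd] at e2
    set f := hauptN 5 2 C5 with hf
    set g := f.expand 5 five_ne with hg
    set r := sbN 5 2 C5 (R52 0 C5) with hr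
    set ri := sbN 5 2 C5 (invOfUnit (R52 0 C5) 1) with hri
    set qi := sbN 5 2 C5 (invOfUnit ((1 - 5 * X) * (1 + 20 * gs52 C5 - 25 * gs52 C5 ^ 2)) 1)
      with hqi
    set E := eisTwo C5 with hE
    set E5 := E.expand 5 five_ne with hE5
    set d := dlogN 5 2 C5 with hdd
    clear_value f g r ri qi E E5 d
    have key : E * (1 - f) * ((1 - 5 * f) * (1 + 20 * g - 25 * g ^ 2)) * r =
        E5 * (1 - g) * ((1 - 5 * g) * (1 + 20 * f - 25 * f ^ 2)) := by
      linear_combination (1 + 20 * g - 25 * g ^ 2) * r * e1 - (1 + 20 * f - 25 * f ^ 2) * e2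
    calc E * (1 - f) = E * (1 - f) * ((1 - 5 * f) * (1 + 20 * g - 25 * g ^ 2) * qi) * (r * ri) := by
          rw [h2, h3, mul_one, mul_one]
      _ = (E * (1 - f) * ((1 - 5 * f) * (1 + 20 * g - 25 * g ^ 2)) * r) * (qi * ri) := by ring
      _ = _ := by rw [key]; ring
  · have h3 := lp17_i3
    linear_combination Re52 C5 * h3

theorem um52 (hb : Bnd52) (hW : LN.W52) : UM52 := by
  intro c hc x
  obtain rfl | rfl : c = 0 ∨ c = 1 := by omega
  · exact lp17_zero hb x
  · exact lp17_one hb hW x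

end D52

end GH
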