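import Pool.Agent.GH.LN.PStm
import Pool.Agent.GH.D52.Fix52
import Pool.Agent.GH.LN.LagN
import Pool.Agent.GH.LN.SerN

/-!
# `(5,2)`: the eigenform of weight two
-/

open PowerSeries Filter Topology

noncomputable section

namespace GH

namespace LN

/-! ### Base change -/

theorem lp11_map_thqN {R S : Type*} [CommRing R] [CommRing S] (φ : R →+* S) (F : PowerSeries R) :
    PowerSeries.map φ (thqN F) = thqN (PowerSeries.map φ F) := by
  ext n
  rw [PowerSeries.coeff_map, thqN, thqN, coeff_mk, coeff_mk, map_mul, map_natCast,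
    PowerSeries.coeff_map]

theorem lp11_map_fxU (p N : ℕ) {R S : Type*} [CommRing R] [CommRing S] (φ : R →+* S) :
    PowerSeries.map φ (fxU p N R) = fxU p N S := by
  unfold fxU
  rw [map_pow, map_mul, map_etaNp, map_inv_etaN]

theorem lp11_map_dlogN (p N : ℕ) {R S : Type*} [CommRing R] [CommRing S] (φ : R →+* S) :
    PowerSeries.map φ (dlogN p N R) = dlogN p N S := by
  unfold dlogN
  rw [map_add, map_one, map_mul, lp11_map_thqN, map_inv_of φ (fx_constantCoeff_U p N R),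
    lp11_map_fxU]

theorem lp11_map_eisTwo {R S : Type*} [CommRing R] [CommRing S] (φ : R →+* S) :
    PowerSeries.map φ (eisTwo R) = eisTwo S := by
  unfold eisTwo
  rw [map_add, map_one]
  congr 1
  ext n
  rw [PowerSeries.coeff_map, coeff_mk, coeff_mk, map_mul, map_ofNat, map_sum]
  congr 1
  refine Finset.sum_congr rfl fun d _ ↦ ?_
  split_ifs
  · rw [map_natCast]
  · rw [map_zero]

/-! ### Sums over divisors -/

/-- `∑_{d ∣ n, d odd} d`. -/
def lp11_s (n : ℕ) : ℤ := ∑ d ∈ n.divisors, if d % 2 = 1 then (d : ℤ) else 0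

/-- `∑_{d ∣ n, d odd, 5 ∤ d} d`. -/
def lp11_t (n : ℕ) : ℤ := ∑ d ∈ n.divisors, if d % 2 = 1 ∧ ¬ 5 ∣ d then (d : ℤ) else 0

theorem lp11_s_five {m : ℕ} (hm : m ≠ 0) : lp11_s (5 * m) = lp11_t (5 * m) + 5 * lp11_s m := by
  unfold lp11_s lp11_t
  have h1 : ∑ d ∈ (5 * m).divisors, (if d % 2 = 1 then (d : ℤ) else 0) =
      ∑ d ∈ (5 * m).divisors, (if d % 2 = 1 ∧ ¬ 5 ∣ d then (d : ℤ) else 0) +
        ∑ d ∈ (5 * m).divisors, (if 5 ∣ d then (if d % 2 = 1 then (d : ℤ) else 0) else 0) := by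
    rw [← Finset.sum_add_distrib]
    refine Finset.sum_congr rfl fun d _ ↦ ?_
    by_cases h2 : 5 ∣ d
    · simp [h2]
    · simp [h2]
  have h0 : ∑ d ∈ (5 * m).divisors, (if 5 ∣ d then (if d % 2 = 1 then (d : ℤ) else 0) else 0) =
      ∑ d ∈ (5 * m).divisors with 5 ∣ d, (if d % 2 = 1 then (d : ℤ) else 0) :=
    (Finset.sum_filter _ _).symm
  rw [h1, h0, Finset.mul_sum]
  congr 1
  refine Finset.sum_nbij' (fun d ↦ d / 5) (fun e ↦ 5 * e) ?_ ?_ ?_ ?_ ?_
  · intro d hd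
    rw [Finset.mem_filter, Nat.mem_divisors] at hd
    obtain ⟨⟨h2, h3⟩, e, rfl⟩ := hd
    rw [Nat.mem_divisors]
    refine ⟨?_, hm⟩
    have : 5 * e / 5 = e := by omega
    simp only [this]
    exact Nat.dvd_of_mul_dvd_mul_left (by norm_num) h2
  · intro e he
    rw [Nat.mem_divisors] at he
    rw [Finset.mem_filter, Nat.mem_divisors]
    exact ⟨⟨Nat.mul_dvd_mul_left 5 he.1, by omega⟩, Dvd.intro _ rfl⟩
  · intro d hd
    rw [Finset.mem_filter] at hd
    have := hd.2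
    show 5 * (d / 5) = d
    omega
  · intro e _
    show 5 * e / 5 = e
    omega
  · intro d hd
    rw [Finset.mem_filter] at hd
    obtain ⟨_, e, rfl⟩ := hd
    have : 5 * e / 5 = e := by omega
    simp only [this]
    have h2 : 5 * e % 2 = 1 ↔ e % 2 = 1 := by omega
    by_cases h3 : e % 2 = 1
    · rw [if_pos (h2.2 h3), if_pos h3]
      push_cast
      ring
    · rw [if_neg (fun h ↦ h3 (h2.1 h)), if_neg h3, mul_zero]

theorem lp11_t_five {m : ℕ} (hm : m ≠ 0) : lp11_t (5 * m) = lp11_t m := by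
  unfold lp11_t
  rw [← Finset.sum_filter, ← Finset.sum_filter]
  refine Finset.sum_congr ?_ fun _ _ ↦ rfl
  ext d
  rw [Finset.mem_filter, Finset.mem_filter, Nat.mem_divisors, Nat.mem_divisors]
  constructor
  · rintro ⟨⟨h1, _⟩, h2, h3⟩
    refine ⟨⟨?_, hm⟩, h2, h3⟩
    have h4 : Nat.Coprime d 5 := by
      rw [Nat.coprime_comm]
      exact (Nat.Prime.coprime_iff_not_dvd (by norm_num)).2 h3
    exact h4.dvd_of_dvd_mul_left h1
  · rintro ⟨⟨h1, _⟩, h2, h3⟩
    exact ⟨⟨h1.mul_left 5, by omega⟩, h2, h3⟩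

theorem lp11_s_not {m : ℕ} (hm : ¬ 5 ∣ m) : lp11_s m = lp11_t m := by
  unfold lp11_s lp11_t
  refine Finset.sum_congr rfl fun d hd ↦ ?_
  rw [Nat.mem_divisors] at hd
  have h1 : ¬ 5 ∣ d := fun h ↦ hm (h.trans hd.1)
  by_cases h2 : d % 2 = 1
  · rw [if_pos h2, if_pos ⟨h2, h1⟩]
  · rw [if_neg h2, if_neg (fun h ↦ h2 h.1)]

theorem lp11_coeff_eis (R : Type*) [CommRing R] {n : ℕ} (hn : n ≠ 0) :
    PowerSeries.coeff n (eisTwo R) = 24 * ((lp11_s n : ℤ) : R) := by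
  unfold eisTwo lp11_s
  rw [map_add, PowerSeries.coeff_one, if_neg hn, zero_add, coeff_mk]
  congr 1
  push_cast
  rfl

theorem lp11_coeff_eis0 (R : Type*) [CommRing R] : PowerSeries.coeff 0 (eisTwo R) = 1 := by
  unfold eisTwo
  rw [map_add, PowerSeries.coeff_one, if_pos rfl, coeff_mk, Nat.divisors_zero, Finset.sum_empty,
    mul_zero, add_zero]

/-- `U_5` fixes `W - 5 W(q⁵)`. -/
theorem lp11_U (R : Type*) [CommRing R] (n : ℕ) :
    PowerSeries.coeff (5 * n) (eisTwo R - 5 * (eisTwo R).expand 5 D52.five_ne) =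
      PowerSeries.coeff n (eisTwo R - 5 * (eisTwo R).expand 5 D52.five_ne) := by
  have h5 : (5 : PowerSeries R) = C (5 : R) := by rw [map_ofNat]
  rw [h5, map_sub, map_sub, coeff_C_mul, coeff_C_mul, coeff_expand_mul]
  rcases Nat.eq_zero_or_pos n with rfl | hn
  · have h1 : PowerSeries.coeff 0 ((eisTwo R).expand 5 D52.five_ne) = 1 := by
      have := PowerSeries.coeff_expand_mul 5 D52.five_ne (eisTwo R) 0
      rw [mul_zero] at this
      rw [this, lp11_coeff_eis0]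
    rw [mul_zero, h1, lp11_coeff_eis0]
  · have hn0 : n ≠ 0 := by omega
    rw [lp11_coeff_eis R (by omega : 5 * n ≠ 0), lp11_coeff_eis R hn0, lp11_s_five hn0,
      lp11_t_five hn0]
    by_cases h : 5 ∣ n
    · obtain ⟨k, rfl⟩ := h
      have hk : k ≠ 0 := by omega
      rw [coeff_expand_mul, lp11_coeff_eis R hk, lp11_s_five hk, lp11_t_five hk]
      push_cast
      ring
    · rw [coeff_expand_of_not_dvd _ _ _ h, lp11_s_not h]
      push_cast
      ring

end LN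

namespace D52

open LN D5

/-! ### The form `D` -/

theorem lp11_W (hW : LN.W52) : eisTwo C5 * ((1 - hauptN 5 2 C5) * (1 - 5 * hauptN 5 2 C5)) =
    dlogN 5 2 C5 * (1 + 20 * hauptN 5 2 C5 - 25 * hauptN 5 2 C5 ^ 2) := by
  have h := congrArg (PowerSeries.map (algebraMap ℚ C5)) hW
  simp only [map_mul, map_sub, map_add, map_pow, map_one, map_ofNat, LN.map_hauptN,
    lp11_map_dlogN, lp11_map_eisTwo] at h
  exact h

theorem lp11_cc : PowerSeries.constantCoeff ((1 - hauptN 5 2 C5) * (1 - 5 * hauptN 5 2 C5)) = 1 := by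
  simp [LN.constantCoeff_hauptN]

/-- `W = D (1+20f-25f²)`. -/
theorem lp11_WD (hW : LN.W52) : eisTwo C5 =
    D52 C5 * (1 + 20 * hauptN 5 2 C5 - 25 * hauptN 5 2 C5 ^ 2) := by
  have h1 := lp11_W hW
  have h2 := LN.mul_inv_of lp11_cc
  unfold D52
  rw [dlog52_eq]
  linear_combination (invOfUnit ((1 - hauptN 5 2 C5) * (1 - 5 * hauptN 5 2 C5)) 1) * h1 -
    eisTwo C5 * h2

theorem lp11_eq (hK : LN.K52) : S52 C5 * (1 - gs52 C5) * (1 - 5 * gs52 C5) ^ 5 =
    (1 - (X : PowerSeries C5)) ^ 5 * (1 - 5 * X) := by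
  have h := congrArg (PowerSeries.map (Int.castRingHom C5)) (eq52 hK)
  rw [S52_eq, gs52_eq] at h
  simp only [map_mul, map_sub, map_pow, map_one, map_ofNat, PowerSeries.map_X, LN.map_SN,
    LN.map_gsN] at h
  exact h

theorem lp11_cg : PowerSeries.constantCoeff (gs52 C5) = 0 := LN.constantCoeff_gsN 5 2 five_ne C5

theorem lp11_cS : PowerSeries.constantCoeff (S52 C5) = 1 := LN.constantCoeff_SN 5 2 five_ne C5

theorem lp11_cps (c : ℕ) : PowerSeries.constantCoeff (ps52 c (gs52 C5)) = 1 := by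
  unfold ps52
  simp [lp11_cg]

theorem lp11_SSi : S52 C5 * invOfUnit (S52 C5) 1 = 1 := LN.mul_inv_of lp11_cS

/-- `D(q⁵) (1+20g-25g²) = D (1-4f-f²)`. -/
theorem lp11_D (hK : LN.K52) (hR : LN.RelR 5 (S52 C5) (R52 0 C5)) :
    (D52 C5).expand 5 five_ne * (1 + 20 * (hauptN 5 2 C5).expand 5 five_ne -
      25 * (hauptN 5 2 C5).expand 5 five_ne ^ 2) =
      D52 C5 * (1 - 4 * hauptN 5 2 C5 - hauptN 5 2 C5 ^ 2) := by
  have hd := LN.dlogN_expand 5 2 five_ne (LN.hauptN_expand 5 2 five_ne C5) (R := R52 0 C5) hR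
  have he := congrArg (sbN 5 2 C5) (lp11_eq hK)
  have hS := congrArg (sbN 5 2 C5) lp11_SSi
  have hP := congrArg (sbN 5 2 C5) (LN.mul_inv_of (lp11_cps 0))
  have hg : sbN 5 2 C5 (gs52 C5) = (hauptN 5 2 C5).expand 5 five_ne := by
    rw [sbN_apply, gs52_eq, LN.gsN_subst]
  have hE := LN.mul_inv_of lp11_cc
  have hE5 := congrArg (PowerSeries.expand 5 five_ne) hE
  have hD5 : (D52 C5).expand 5 five_ne = (dlogN 5 2 C5).expand 5 five_ne *
      (invOfUnit ((1 - hauptN 5 2 C5) * (1 - 5 * hauptN 5 2 C5)) 1).expand 5 five_ne := by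
    unfold D52
    rw [dlog52_eq, map_mul]
  have hD : D52 C5 = dlogN 5 2 C5 *
      invOfUnit ((1 - hauptN 5 2 C5) * (1 - 5 * hauptN 5 2 C5)) 1 := rfl
  rw [← sbN_apply] at hd
  have hR1 : sbN 5 2 C5 (R52 0 C5) = sbN 5 2 C5 (invOfUnit (S52 C5) 1) *
      ((1 - hauptN 5 2 C5) ^ 4 * (1 - 4 * hauptN 5 2 C5 - hauptN 5 2 C5 ^ 2) *
        sbN 5 2 C5 (invOfUnit (ps52 0 (gs52 C5)) 1)) := by
    unfold R52 ns52
    rw [Nat.sub_zero, pow_one]
    simp only [map_mul, map_sub, map_pow, map_one, map_ofNat, sbN_X]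
  rw [hR1] at hd
  simp only [map_mul, map_sub, map_pow, map_one, map_ofNat, sbN_X, hg] at he
  rw [map_mul, map_one] at hS
  have hP0 : sbN 5 2 C5 (ps52 0 (gs52 C5)) =
      (1 - 5 * (hauptN 5 2 C5).expand 5 five_ne) ^ 4 *
        (1 + 20 * (hauptN 5 2 C5).expand 5 five_ne -
          25 * (hauptN 5 2 C5).expand 5 five_ne ^ 2) := by
    unfold ps52
    rw [Nat.sub_zero, pow_one]
    simp only [map_mul, map_sub, map_add, map_pow, map_one, map_ofNat, hg]
  rw [map_mul, map_one, hP0] at hP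
  simp only [map_mul, map_sub, map_pow, map_one, map_ofNat] at hE5
  rw [hD5, hD, hd]
  set f := hauptN 5 2 C5 with hf
  set g := f.expand 5 five_ne with hgd
  set s := sbN 5 2 C5 (S52 C5) with hs
  set si := sbN 5 2 C5 (invOfUnit (S52 C5) 1) with hsi
  set pI := sbN 5 2 C5 (invOfUnit (ps52 0 (gs52 C5)) 1) with hpI
  set ei := invOfUnit ((1 - f) * (1 - 5 * f)) 1 with hei
  set e5 := ei.expand 5 five_ne with he5
  set d := dlogN 5 2 C5 with hdd
  clear_value f g s si pI ei e5 d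
  have hne : s * ((1 - 5 * g) ^ 4 * (1 + 20 * g - 25 * g ^ 2)) * ((1 - g) * (1 - 5 * g)) ≠ 0 := by
    intro h0
    have h1 : s * ((1 - 5 * g) ^ 4 * (1 + 20 * g - 25 * g ^ 2)) * ((1 - g) * (1 - 5 * g)) *
        (si * pI * e5) = 1 := by
      calc _ = (s * si) * ((1 - 5 * g) ^ 4 * (1 + 20 * g - 25 * g ^ 2) * pI) *
          ((1 - g) * (1 - 5 * g) * e5) := by ring
        _ = 1 := by rw [hS, hP, hE5]; ring
    rw [h0, zero_mul] at h1
    exact zero_ne_one h1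
  refine mul_left_cancel₀ hne ?_
  calc _ = d * (1 - f) ^ 4 * (1 - 4 * f - f ^ 2) * (1 + 20 * g - 25 * g ^ 2) * (s * si) *
        ((1 - 5 * g) ^ 4 * (1 + 20 * g - 25 * g ^ 2) * pI) *
          ((1 - g) * (1 - 5 * g) * e5) := by ring
    _ = d * (1 - f) ^ 4 * (1 - 4 * f - f ^ 2) * (1 + 20 * g - 25 * g ^ 2) := by
        rw [hS, hP, hE5]; ring
    _ = d * (1 - f) ^ 4 * (1 - 4 * f - f ^ 2) * (1 + 20 * g - 25 * g ^ 2) *
        ((1 - f) * (1 - 5 * f) * ei) := by rw [hE]; ring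
    _ = d * ei * (1 - 4 * f - f ^ 2) * (1 + 20 * g - 25 * g ^ 2) *
        ((1 - f) ^ 5 * (1 - 5 * f)) := by ring
    _ = d * ei * (1 - 4 * f - f ^ 2) * (1 + 20 * g - 25 * g ^ 2) *
        (s * (1 - g) * (1 - 5 * g) ^ 5) := by rw [he]
    _ = _ := by ring

/-- `D v(f)` in terms of `W`. -/
theorem lp11_V (hK : LN.K52) (hW : LN.W52) (hR : LN.RelR 5 (S52 C5) (R52 0 C5)) :
    eisTwo C5 - 5 * (eisTwo C5).expand 5 five_ne =
      C (-4 : C5) * (D52 C5 * (v52 C5).subst (hauptN 5 2 C5)) := by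
  have h1 := lp11_WD hW
  have h2 := congrArg (PowerSeries.expand 5 five_ne) h1
  simp only [map_mul, map_sub, map_add, map_pow, map_one, map_ofNat] at h2
  have h3 := lp11_D hK hR
  rw [h3] at h2
  have h4 : (v52 C5).subst (hauptN 5 2 C5) = 1 - 10 * hauptN 5 2 C5 + 5 * hauptN 5 2 C5 ^ 2 := by
    rw [← sbN_apply]
    unfold v52
    simp only [map_mul, map_sub, map_add, map_pow, map_one, map_ofNat, sbN_X]
  have h5 : (C (-4 : C5) : PowerSeries C5) = -4 := by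
    rw [map_neg, map_ofNat]
  rw [h2, h4, h5]
  linear_combination h1

theorem lp11_UV (hK : LN.K52) (hW : LN.W52) (hR : LN.RelR 5 (S52 C5) (R52 0 C5)) :
    U 5 (D52 C5 * (v52 C5).subst (hauptN 5 2 C5)) =
      D52 C5 * (v52 C5).subst (hauptN 5 2 C5) := by
  ext n
  rw [U, coeff_mk]
  have h1 := lp11_U C5 n
  rw [lp11_V hK hW hR, coeff_C_mul, coeff_C_mul] at h1
  exact mul_left_cancel₀ (by norm_num) h1

/-- `T = (1+20g-25g²)/(1-4h-h²)`. -/
def lp11_T : PowerSeries C5 :=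
  (1 + 20 * gs52 C5 - 25 * gs52 C5 ^ 2) * invOfUnit (1 - 4 * X - X ^ 2) 1

theorem lp11_cn : PowerSeries.constantCoeff (1 - 4 * X - X ^ 2 : PowerSeries C5) = 1 := by
  simp

theorem lp11_hT (hK : LN.K52) (hR : LN.RelR 5 (S52 C5) (R52 0 C5)) :
    D52 C5 = (D52 C5).expand 5 five_ne * lp11_T.subst (hauptN 5 2 C5) := by
  have h1 := lp11_D hK hR
  have h2 := congrArg (sbN 5 2 C5) (LN.mul_inv_of lp11_cn)
  have hg : sbN 5 2 C5 (gs52 C5) = (hauptN 5 2 C5).expand 5 five_ne := by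
    rw [sbN_apply, gs52_eq, LN.gsN_subst]
  simp only [map_mul, map_sub, map_pow, map_one, map_ofNat, sbN_X] at h2
  have h3 : lp11_T.subst (hauptN 5 2 C5) = (1 + 20 * (hauptN 5 2 C5).expand 5 five_ne -
      25 * (hauptN 5 2 C5).expand 5 five_ne ^ 2) *
      sbN 5 2 C5 (invOfUnit (1 - 4 * X - X ^ 2) 1) := by
    rw [← sbN_apply]
    unfold lp11_T
    simp only [map_mul, map_sub, map_add, map_pow, map_one, map_ofNat, hg]
  rw [h3]
  linear_combination (-(D52 C5)) * h2 - (sbN 5 2 C5 (invOfUnit (1 - 4 * X - X ^ 2) 1)) * h1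

/-- `R_0 T = R_1`. -/
theorem lp11_RT : R52 0 C5 * lp11_T = R52 1 C5 := by
  have h1 := LN.mul_inv_of (lp11_cps 0)
  have h2 := LN.mul_inv_of (lp11_cps 1)
  have h3 := LN.mul_inv_of lp11_cn
  have e0 : ps52 0 (gs52 C5) = ps52 1 (gs52 C5) * (1 + 20 * gs52 C5 - 25 * gs52 C5 ^ 2) := by
    unfold ps52
    rw [Nat.sub_zero, pow_one, Nat.sub_self, pow_zero, mul_one]
  have n0 : ns52 0 (X : PowerSeries C5) = ns52 1 X * (1 - 4 * X - X ^ 2) := by
    unfold ns52
    rw [Nat.sub_zero, pow_one, Nat.sub_self, pow_zero, mul_one]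
  unfold R52 lp11_T
  rw [n0]
  set i0 := invOfUnit (ps52 0 (gs52 C5)) 1 with hi0
  rw [e0] at h1
  set p1 := ps52 1 (gs52 C5) with hp1
  set i1 := invOfUnit p1 1 with hi1
  set Q := 1 + 20 * gs52 C5 - 25 * gs52 C5 ^ 2 with hQ
  set M : PowerSeries C5 := 1 - 4 * X - X ^ 2 with hM
  set Mi := invOfUnit M 1 with hMi
  set si := invOfUnit (S52 C5) 1 with hsi
  set n1 := ns52 1 (X : PowerSeries C5) with hn1
  clear_value i0 p1 i1 Q M Mi si n1
  have h4 : i0 * Q = i1 := by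
    linear_combination i1 * h1 - i0 * Q * h2
  calc si * (n1 * M * i0) * (Q * Mi) = si * (n1 * (i0 * Q)) * (M * Mi) := by ring
    _ = si * (n1 * i1) := by rw [h3, h4, mul_one]

/-- **The eigenform of weight two.** -/
theorem vev52 (hK : LN.K52) (hW : LN.W52) (hR : LN.RelR 5 (S52 C5) (R52 0 C5)) : Vev52 := by
  haveI : Fact (Nat.Prime 5) := ⟨by norm_num⟩
  have h1 := LN.U_mul_substN (p := 5) (N := 2) (K := C5) (S := S52 C5) (R := R52 0 C5)
    (T := lp11_T) (B := D52 C5) (LN.hauptN_expand 5 2 five_ne C5) hR (lp11_hT hK hR) (v52 C5)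
  rw [lp11_UV hK hW hR] at h1
  have hDne : D52 C5 ≠ 0 := by
    intro h0
    have h2 : PowerSeries.constantCoeff (D52 C5) = 1 := by
      unfold D52
      rw [map_mul, LN.constantCoeff_inv lp11_cc, dlog52_eq, LN.constantCoeff_dlogN, mul_one]
    rw [h0, map_zero] at h2
    exact zero_ne_one h2
  have h3 := LN.subst_injN 5 2 C5 (mul_left_cancel₀ hDne h1)
  intro i
  have h4 := congrArg (PowerSeries.coeff i) h3
  rw [coeff_mk] at h4
  rw [h4]
  have h5 : R52 1 C5 * v52 C5 * S52 C5 ^ i = v52 C5 * (R52 0 C5 * S52 C5 ^ i * lp11_T) := by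
    rw [← lp11_RT]
    ring
  rw [h5, coeff_mul, Finset.Nat.sum_antidiagonal_eq_sum_range_succ
      (fun a b ↦ PowerSeries.coeff a (v52 C5) *
        PowerSeries.coeff b (R52 0 C5 * S52 C5 ^ i * lp11_T))]
  refine Finset.sum_congr rfl fun j _ ↦ ?_
  rw [mul_comm]

end D52

end GH
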